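import Pool.Agent.Work.MP_db9399_all.Interface

/-!
# MP_db9399, TSPLIT, block OO: splitting the edges outside the pieces (helper39)

`Go` = graph of the edges with both ends outside the pieces, `O1` = vertices with many such edges.
See `BLUEPRINT.md` in this folder.
-/

set_option autoImplicit false

namespace Pool.Agent.Work.MP_db9399_oo

open Finset Classical
open Pool.Agent.Work.MP_db9399_all (nb)

universe u

/-! ## 1. Random labels, halvings -/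

/-- RND: independent labels with linear tests (from `labM` of helper61). -/
def Stmt_RND : Prop :=
  ∀ (A : ℝ) (g : ℕ), 0 < A → 1 ≤ g → ∃ d0 : ℕ, ∀ {V κ : Type u} [Fintype V] [Fintype κ]
    (p : V → Fin g → ℝ) (a : κ → V → ℝ) (d : ℕ), d0 ≤ d → (∀ v j, 0 ≤ p v j) →
    (∀ v, ∑ j, p v j = 1) →
    (∀ q, ((univ.filter fun v => a q v ≠ 0).card : ℝ) ≤ (d : ℝ) ^ A) →
    (∀ v, ((univ.filter fun q => a q v ≠ 0).card : ℝ) ≤ (d : ℝ) ^ A) →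
    ∃ L : V → Fin g, (∀ v, 0 < p v (L v)) ∧
      ∀ q j, |∑ v, a q v * ((if L v = j then 1 else 0) - p v j)| ≤
        Real.log d * Real.sqrt (∑ v, a q v ^ 2)

section arcs

variable {E A B : Type u}

/-- the test `(g, h, a)` at the edge `e` -/
noncomputable def tv (α : E → A) (β : E → B) (g : A → ℝ) (h : B → ℝ) (a : E → ℝ) (e : E) : ℝ :=
  g (α e) + h (β e) + a e

/-- `e` is in the support of the test -/
def act (α : E → A) (β : E → B) (g : A → ℝ) (h : B → ℝ) (a : E → ℝ) (e : E) : Prop :=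
  g (α e) ≠ 0 ∨ h (β e) ≠ 0 ∨ a e ≠ 0

/-- noise of a test if the pieces have `L` edges -/
noncomputable def nz [Fintype E] [Fintype A] [Fintype B] (α : E → A) (β : E → B) (g : A → ℝ)
    (h : B → ℝ) (a : E → ℝ) (L : ℝ) : ℝ :=
  ∑ v, g v ^ 2 * (((univ.filter fun e => α e = v).card : ℝ) / L + 3) +
    ∑ v, h v ^ 2 * (((univ.filter fun e => β e = v).card : ℝ) / L + 3) + L * ∑ e, a e ^ 2

end arcs

/-- HALF: one halving by trails (`stmt_TRAIL` of helper59 and RND). The part `g (α e) + h (β e)` of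
a test only sees the free ends. -/
def Stmt_HALF : Prop :=
  ∀ A0 : ℝ, 0 < A0 → ∃ d0 : ℕ, ∀ {E A B τ : Type u} [Fintype E] [Fintype A] [Fintype B]
    [Fintype τ] (α : E → A) (β : E → B) (g : τ → A → ℝ) (h : τ → B → ℝ) (a : τ → E → ℝ) (J d : ℕ),
    d0 ≤ d → 2 ^ J ≤ d →
    (∀ t, ((univ.filter fun e => act α β (g t) (h t) (a t) e).card : ℝ) ≤ (d : ℝ) ^ A0) →
    (∀ e, ((univ.filter fun t => act α β (g t) (h t) (a t) e).card : ℝ) ≤ (d : ℝ) ^ A0) →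
    ∃ x : E → ℝ, (∀ e, x e = 1 ∨ x e = -1) ∧
      ∀ t, |∑ e, x e * tv α β (g t) (h t) (a t) e| ≤
        5 * Real.log d * Real.sqrt (nz α β (g t) (h t) (a t) (2 ^ J))

/-- SPL: `k` halvings. -/
def Stmt_SPL : Prop :=
  ∀ (A0 : ℝ) (k : ℕ), 0 < A0 → ∃ d0 : ℕ, ∀ {E A B τ : Type u} [Fintype E] [Fintype A] [Fintype B]
    [Fintype τ] (α : E → A) (β : E → B) (g : τ → A → ℝ) (h : τ → B → ℝ) (a : τ → E → ℝ) (J d : ℕ),
    d0 ≤ d → 2 ^ J ≤ d →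
    (∀ t, ((univ.filter fun e => act α β (g t) (h t) (a t) e).card : ℝ) ≤ (d : ℝ) ^ A0) →
    (∀ e, ((univ.filter fun t => act α β (g t) (h t) (a t) e).card : ℝ) ≤ (d : ℝ) ^ A0) →
    ∃ cell : E → Fin (2 ^ k), ∀ t i,
      |∑ e with cell e = i, tv α β (g t) (h t) (a t) e -
        (∑ e, tv α β (g t) (h t) (a t) e) / 2 ^ k| ≤
        Real.log d ^ 2 * Real.sqrt (nz α β (g t) (h t) (a t) (2 ^ J))

/-! ## 2. Graph forms -/

section graphs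

variable {V : Type u} [Fintype V]

/-- an orientation of the edges of `Go` -/
structure Ori (Go : SimpleGraph V) (Dr : V → V → Prop) : Prop where
  or : ∀ v w, Go.Adj v w → Dr v w ∨ Dr w v
  as : ∀ v w, Dr v w → ¬ Dr w v

/-- out-neighbours (`s = true`) and in-neighbours -/
noncomputable def no (Dr : V → V → Prop) (F : SimpleGraph V) (s : Bool) (v : V) : Finset V :=
  (nb F v).filter fun w => if s = true then Dr v w else Dr w v

/-- sum of `f` over the arcs of `H` -/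
noncomputable def es (Dr : V → V → Prop) (H : SimpleGraph V) (f : V → V → ℝ) : ℝ :=
  ∑ v, ∑ w, if H.Adj v w ∧ Dr v w then f v w else 0

/-- number of the arcs of `H` where `f` does not vanish -/
noncomputable def sup (Dr : V → V → Prop) (H : SimpleGraph V) (f : V → V → ℝ) : ℝ :=
  ((univ.filter fun p : V × V => H.Adj p.1 p.2 ∧ Dr p.1 p.2 ∧ f p.1 p.2 ≠ 0).card : ℝ)

end graphs

/-- SPG: `k` halvings of a graph. Tests: `g v` for every out-arc of `v`, `h w` for every in-arc of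
`w`, `a v w` for the arc `v w`. -/
def Stmt_SPG : Prop :=
  ∀ (A0 : ℝ) (k : ℕ), 0 < A0 → ∃ d0 : ℕ, ∀ {V τ : Type u} [Fintype V] [Fintype τ]
    (H : SimpleGraph V) (Dr : V → V → Prop) (g h : τ → V → ℝ) (a : τ → V → V → ℝ) (J d : ℕ),
    d0 ≤ d → 2 ^ J ≤ d → Ori H Dr →
    (∀ t, ((univ.filter fun p : V × V => H.Adj p.1 p.2 ∧ Dr p.1 p.2 ∧
      (g t p.1 ≠ 0 ∨ h t p.2 ≠ 0 ∨ a t p.1 p.2 ≠ 0)).card : ℝ) ≤ (d : ℝ) ^ A0) →
    (∀ v w, H.Adj v w → Dr v w →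
      ((univ.filter fun t => g t v ≠ 0 ∨ h t w ≠ 0 ∨ a t v w ≠ 0).card : ℝ) ≤ (d : ℝ) ^ A0) →
    ∃ C : Fin (2 ^ k) → SimpleGraph V, (∀ i, C i ≤ H) ∧
      (∀ v w, H.Adj v w → ∃ i, (C i).Adj v w) ∧
      (∀ i j v w, (C i).Adj v w → (C j).Adj v w → i = j) ∧
      ∀ t i, |es Dr (C i) (fun v w => g t v + h t w + a t v w) -
        es Dr H (fun v w => g t v + h t w + a t v w) / 2 ^ k| ≤
        Real.log d ^ 2 * Real.sqrt (∑ v, (g t v ^ 2 + h t v ^ 2) * (((nb H v).card : ℝ) / 2 ^ J + 3)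
          + 2 ^ J * es Dr H (fun v w => a t v w ^ 2))

/-- RNG: independent labels of the edges. -/
def Stmt_RNG : Prop :=
  ∀ (A : ℝ) (g : ℕ), 0 < A → 1 ≤ g → ∃ d0 : ℕ, ∀ {V κ : Type u} [Fintype V] [Fintype κ]
    (Go : SimpleGraph V) (Dr : V → V → Prop) (p : Fin g → ℝ) (a : κ → V → V → ℝ) (d : ℕ),
    d0 ≤ d → Ori Go Dr → (∀ j, 0 ≤ p j) → ∑ j, p j = 1 →
    (∀ q, sup Dr Go (a q) ≤ (d : ℝ) ^ A) →
    (∀ v w, Go.Adj v w → Dr v w → ((univ.filter fun q => a q v w ≠ 0).card : ℝ) ≤ (d : ℝ) ^ A) →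
    ∃ B : Fin g → SimpleGraph V, (∀ j, B j ≤ Go) ∧ (∀ v w, Go.Adj v w → ∃ j, (B j).Adj v w) ∧
      (∀ i j v w, (B i).Adj v w → (B j).Adj v w → i = j) ∧
      ∀ q j, |es Dr (B j) (a q) - p j * es Dr Go (a q)| ≤
        Real.log d * Real.sqrt (es Dr Go (fun v w => a q v w ^ 2))

/-- Two halves and an orientation. -/
structure Hlv {V : Type u} [Fintype V] (Go : SimpleGraph V) (H : Bool → SimpleGraph V)
    (Dr : V → V → Prop) (d : ℕ) : Prop where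
  ori : Ori Go Dr
  le : ∀ i, H i ≤ Go
  cov : ∀ v w, Go.Adj v w → ∃ i, (H i).Adj v w
  dis : ∀ v w, (H true).Adj v w → ¬ (H false).Adj v w
  dg : ∀ i s v, |((no Dr (H i) s v).card : ℝ) - ((nb Go v).card : ℝ) / 4| ≤
    (d : ℝ) ^ (505 / 1000 : ℝ)
  cd : ∀ u w, u ≠ w → |((nb (H true) u ∩ nb (H false) w).card : ℝ) -
    ((nb Go u ∩ nb Go w).card : ℝ) / 4| ≤ (d : ℝ) ^ (505 / 1000 : ℝ)

/-- HLV: halves (from `stmt_LABQ` of helper21 with `T = Bool × Bool`, no graphs, the vertices there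
are the edges here), with external tests `q k` at the vertex `vk k`. -/
def Stmt_HLV : Prop :=
  ∃ d0 : ℕ, ∀ {V κ : Type u} [Fintype V] [Fintype κ] (Go : SimpleGraph V) (d : ℕ) (vk : κ → V)
    (q : κ → V → ℝ), d0 ≤ d → (∀ v, (nb Go v).card ≤ d) → (∀ k v, |q k v| ≤ 1) →
    (∀ v w, Go.Adj v w → (univ.filter fun k => vk k = v ∧ q k w ≠ 0).card ≤ d ^ 8) →
    ∃ (H : Bool → SimpleGraph V) (Dr : V → V → Prop), Hlv Go H Dr d ∧
      ∀ i k, |∑ w ∈ nb (H i) (vk k), q k w - (∑ w ∈ nb Go (vk k), q k w) / 2| ≤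
        (d : ℝ) ^ (505 / 1000 : ℝ)

/-! ## 3. Exactness, one class -/

/-- The data of one class: `E` core, `K` edges with the constant weight `x0`, `F i` flexible edges of
the half `i`, `M true`, `M false` slack sets for out- and in-degrees, `β` share of `F i` in every
direction. -/
structure Flx {V : Type u} [Fintype V] (Go E K : SimpleGraph V) (F : Bool → SimpleGraph V)
    (Dr : V → V → Prop) (O1 : Finset V) (M : Bool → Finset V) (d : ℕ) (β γ μ : ℝ) : Prop where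
  ori : Ori Go Dr
  EG : E ≤ Go
  KG : K ≤ Go
  FG : ∀ i, F i ≤ Go
  EK : ∀ v w, E.Adj v w → ¬ K.Adj v w
  EF : ∀ i v w, E.Adj v w → ¬ (F i).Adj v w
  KF : ∀ i v w, K.Adj v w → ¬ (F i).Adj v w
  FF : ∀ v w, (F true).Adj v w → ¬ (F false).Adj v w
  dg : ∀ v, ((nb Go v).card : ℝ) ≤ d
  hub : ∀ v ∈ O1, γ * d ≤ ((nb Go v).card : ℝ)
  dF : ∀ i s v, |((no Dr (F i) s v).card : ℝ) - β * (nb Go v).card| ≤ (d : ℝ) ^ (51 / 100 : ℝ)
  MO : ∀ b, M b ⊆ O1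
  Md : Disjoint (M true) (M false)
  Mn : ∀ b s, ∀ v ∈ O1, μ * (β * d) ≤
    (((no Dr (F true) s v).filter fun w => w ∈ M b ∨ w ∉ O1).card : ℝ)

/-- OOE: exact degrees. -/
def Stmt_OOE : Prop :=
  ∀ γ μ : ℝ, 0 < γ → 0 < μ → ∃ (ε : ℝ) (d0 : ℕ), 0 < ε ∧ ∀ {V : Type u} [Fintype V]
    (Go E K : SimpleGraph V) (F : Bool → SimpleGraph V) (Dr : V → V → Prop) (O1 : Finset V)
    (M : Bool → Finset V) (d : ℕ) (β θ x0 : ℝ) (T : V → ℕ) (P : Bool → V → ℝ), d0 ≤ d →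
    Flx Go E K F Dr O1 M d β γ μ →
    (d : ℝ) ^ (-(1 / 40) : ℝ) ≤ β → β ≤ 1 → θ = (d : ℝ) ^ (-(53 / 100) : ℝ) →
    0 ≤ x0 → x0 ≤ 1 →
    (∀ v ∈ O1, (T v : ℝ) + (if v ∈ M true ∪ M false then 1 / 2 else 0) =
      (nb E v).card + x0 * (nb K v).card + 4 * θ * β * (nb Go v).card + P true v + P false v) →
    (∀ i, ∀ v ∈ O1, |P i v| ≤ (d : ℝ) ^ (42 / 100 : ℝ)) →
    (∀ i s v, |∑ w ∈ no Dr (F i) s v ∩ O1, P i w / (nb Go w).card| ≤ ε * β) →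
    ∃ S : SimpleGraph V, E ≤ S ∧
      (∀ v w, S.Adj v w → E.Adj v w ∨ K.Adj v w ∨ ∃ i, (F i).Adj v w) ∧
      (∀ v ∈ O1, v ∉ M true ∪ M false → (nb S v).card = T v) ∧
      (∀ v ∈ O1, (nb S v).card = T v ∨ (nb S v).card = T v + 1) ∧
      ∀ v, v ∉ O1 → |((nb S v).card : ℝ) - ((nb E v).card + x0 * (nb K v).card +
        4 * θ * β * (nb Go v).card)| ≤ 3

/-! ## 4. The base classes -/

/-- The base classes: `E c` with share `ρ c` of `Go`, `K c ≤ E c` with share `υ` of `E c`, flexible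
edges `F c i`, slack sets `M c`; `P c i` = the part of the degree error of `E c` which comes from the
other half. -/
structure Bse {V : Type u} [Fintype V] {m : ℕ} (Go : SimpleGraph V) (Dr : V → V → Prop)
    (O1 : Finset V) (d : ℕ) (ρ : Fin m → ℝ) (υ β μ : ℝ) (E K : Fin m → SimpleGraph V)
    (F : Fin m → Bool → SimpleGraph V) (M : Fin m → Bool → Finset V) (P : Fin m → Bool → V → ℝ) :
    Prop where
  ori : Ori Go Dr
  EG : ∀ c, E c ≤ Go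
  KE : ∀ c, K c ≤ E c
  FG : ∀ c i, F c i ≤ Go
  EE : ∀ c c' v w, (E c).Adj v w → (E c').Adj v w → c = c'
  EF : ∀ c c' i v w, (E c).Adj v w → ¬ (F c' i).Adj v w
  FF : ∀ c i c' i' v w, (F c i).Adj v w → (F c' i').Adj v w → c = c' ∧ i = i'
  dE : ∀ c v, |((nb (E c) v).card : ℝ) - ρ c * (nb Go v).card| ≤ (d : ℝ) ^ (41 / 100 : ℝ)
  dK : ∀ c v, |((nb (K c) v).card : ℝ) - υ * ρ c * (nb Go v).card| ≤ (d : ℝ) ^ (51 / 100 : ℝ)
  dF : ∀ c i s v, |((no Dr (F c i) s v).card : ℝ) - β * (nb Go v).card| ≤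
    (d : ℝ) ^ (51 / 100 : ℝ)
  PE : ∀ c v, P c true v + P c false v = ρ c * (nb Go v).card - (nb (E c) v).card
  Pb : ∀ c i v, |P c i v| ≤ (d : ℝ) ^ (41 / 100 : ℝ)
  PS : ∀ c i s v, |∑ w ∈ no Dr (F c i) s v ∩ O1, P c i w / (nb Go w).card| ≤
    (d : ℝ) ^ (-(3 / 100) : ℝ) * β
  MO : ∀ c b, M c b ⊆ O1
  Md : ∀ c, Disjoint (M c true) (M c false)
  MF : ∀ c b i s v, |((no Dr (F c i) s v ∩ M c b).card : ℝ) -
    μ / 2 * ((no Dr (F c i) s v ∩ O1).card : ℝ)| ≤ (d : ℝ) ^ (51 / 100 : ℝ)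
  MS : ∀ c i s v, |∑ w ∈ no Dr (F c i) s v ∩ O1,
    ((if w ∈ M c true ∪ M c false then 1 else 0) - μ) / (nb Go w).card| ≤
    (d : ℝ) ^ (-(3 / 100) : ℝ) * β
  cd : ∀ c u w, u ≠ w → (d : ℝ) ^ (9 / 10 : ℝ) ≤ ((nb Go u ∩ nb Go w).card : ℝ) →
    ρ c ^ 2 / 8 * ((nb Go u ∩ nb Go w).card : ℝ) ≤
      ((nb (E c \ K c) u ∩ nb (E c \ K c) w).card : ℝ)

/-- External tests for the base classes: `a t` symmetric edge tests, `g t` degree tests, `q t` tests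
for the slack sets, `Lo t` sets of vertices with small codegree with `uu t`. -/
structure Ext {V τ : Type u} [Fintype V] {m : ℕ} (Go : SimpleGraph V) (Dr : V → V → Prop)
    (O1 : Finset V) (d : ℕ) (ρ : Fin m → ℝ) (υ μ : ℝ) (E K : Fin m → SimpleGraph V)
    (M : Fin m → Bool → Finset V) (a : τ → V → V → ℝ) (g q : τ → V → ℝ) (uu : τ → V)
    (Lo : τ → Finset V) : Prop where
  ed : ∀ c t, |es Dr (E c) (a t) - ρ c * es Dr Go (a t)| ≤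
    (d : ℝ) ^ (21 / 100 : ℝ) * Real.sqrt (es Dr Go fun v w => a t v w ^ 2)
  ek : ∀ c t, |es Dr (K c) (a t) - υ * es Dr (E c) (a t)| ≤
    Real.log d * Real.sqrt (es Dr Go fun v w => a t v w ^ 2)
  dg : ∀ c t, |∑ v, g t v * (((nb (E c) v).card : ℝ) - ρ c * (nb Go v).card)| ≤
    (d : ℝ) ^ (41 / 100 : ℝ) * Real.sqrt (∑ v, g t v ^ 2)
  ms : ∀ c b t, |∑ v ∈ O1, q t v * ((if v ∈ M c b then 1 else 0) - μ / 2)| ≤
    Real.log d * Real.sqrt (∑ v ∈ O1, q t v ^ 2)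
  lo : ∀ c t, ρ c ^ 2 / 8 * ∑ w ∈ Lo t, ((nb Go (uu t) ∩ nb Go w).card : ℝ) ≤
    ∑ w ∈ Lo t, ((nb (E c \ K c) (uu t) ∩ nb (E c \ K c) w).card : ℝ) + (d : ℝ) ^ (19 / 10 : ℝ)

/-- supports and multiplicities of the external tests -/
structure ExtH {V τ : Type u} [Fintype V] [Fintype τ] (Go : SimpleGraph V) (d : ℕ) (A : ℝ)
    (a : τ → V → V → ℝ) (g q : τ → V → ℝ) (uu : τ → V) : Prop where
  sy : ∀ t v w, a t v w = a t w v
  a1 : ∀ t, ((univ.filter fun p : V × V => Go.Adj p.1 p.2 ∧ a t p.1 p.2 ≠ 0).card : ℝ) ≤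
    (d : ℝ) ^ A
  a2 : ∀ v w, Go.Adj v w → ((univ.filter fun t => a t v w ≠ 0).card : ℝ) ≤ (d : ℝ) ^ A
  g1 : ∀ t, ((univ.filter fun v => g t v ≠ 0).card : ℝ) ≤ (d : ℝ) ^ A
  g2 : ∀ v, ((univ.filter fun t => g t v ≠ 0).card : ℝ) ≤ (d : ℝ) ^ A
  q1 : ∀ t, ((univ.filter fun v => q t v ≠ 0).card : ℝ) ≤ (d : ℝ) ^ A
  q2 : ∀ v, ((univ.filter fun t => q t v ≠ 0).card : ℝ) ≤ (d : ℝ) ^ A
  u1 : ∀ v, (univ.filter fun t => uu t = v).card ≤ d ^ 4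

/-- BASE: the base classes exist. `n c / 2 ^ k` = share of the class `c`. -/
def Stmt_BASE : Prop :=
  ∀ (m k : ℕ) (n : Fin m → ℕ) (γ μ A : ℝ), (∀ c, 1 ≤ n c) → ∑ c, n c < 2 ^ k → 0 < γ → 0 < μ →
    μ ≤ 1 → 0 < A → ∃ d0 : ℕ, ∀ {V τ : Type u} [Fintype V] [Fintype τ] (Go : SimpleGraph V)
    (O1 : Finset V) (d : ℕ) (a : τ → V → V → ℝ) (g q : τ → V → ℝ) (uu : τ → V)
    (Lo : τ → Finset V), d0 ≤ d → (∀ v, (nb Go v).card ≤ d) →
    (∀ v ∈ O1, γ * d ≤ ((nb Go v).card : ℝ)) → ExtH Go d A a g q uu →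
    ∃ (Dr : V → V → Prop) (E K : Fin m → SimpleGraph V) (F : Fin m → Bool → SimpleGraph V)
      (M : Fin m → Bool → Finset V) (P : Fin m → Bool → V → ℝ),
      Bse Go Dr O1 d (fun c => (n c : ℝ) / 2 ^ k) ((d : ℝ) ^ (-(1 / 50) : ℝ))
        ((1 - (∑ c, (n c : ℝ)) / 2 ^ k) * (d : ℝ) ^ (-(1 / 50) : ℝ) / 4) μ E K F M P ∧
      Ext Go Dr O1 d (fun c => (n c : ℝ) / 2 ^ k) ((d : ℝ) ^ (-(1 / 50) : ℝ)) μ E K M a g q uu Lo

/-! ## 5. The result -/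

/-- FIN: exact classes for given targets (after the light part). From OOE. -/
def Stmt_FIN : Prop :=
  ∀ (m k : ℕ) (n : Fin m → ℕ) (γ μ : ℝ), (∀ c, 1 ≤ n c) → ∑ c, n c < 2 ^ k → 0 < γ → 0 < μ →
    μ ≤ 1 → ∃ (ε : ℝ) (d0 : ℕ), 0 < ε ∧ ∀ {V : Type u} [Fintype V] (Go : SimpleGraph V)
    (Dr : V → V → Prop) (O1 : Finset V) (d : ℕ) (E K : Fin m → SimpleGraph V)
    (F : Fin m → Bool → SimpleGraph V) (M : Fin m → Bool → Finset V) (P : Fin m → Bool → V → ℝ),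
    d0 ≤ d → (∀ v, (nb Go v).card ≤ d) → (∀ v ∈ O1, γ * d ≤ ((nb Go v).card : ℝ)) →
    Bse Go Dr O1 d (fun c => (n c : ℝ) / 2 ^ k) ((d : ℝ) ^ (-(1 / 50) : ℝ))
      ((1 - (∑ c, (n c : ℝ)) / 2 ^ k) * (d : ℝ) ^ (-(1 / 50) : ℝ) / 4) μ E K F M P →
    ∀ (c : Fin m) (σ : ℝ) (T : V → ℕ),
      |σ - (n c : ℝ) / 2 ^ k| ≤ (d : ℝ) ^ (-(56 / 100) : ℝ) →
      (∀ v ∈ O1, |(T v : ℝ) + (if v ∈ M c true ∪ M c false then 1 / 2 else 0) -
        σ * (nb Go v).card| ≤ (d : ℝ) ^ (41 / 100 : ℝ)) →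
      (∀ s v, |∑ w ∈ no Dr (F c true) s v ∩ O1,
        ((T w : ℝ) + (if w ∈ M c true ∪ M c false then 1 / 2 else 0) - σ * (nb Go w).card) /
          (nb Go w).card| ≤
        ε * ((1 - (∑ c, (n c : ℝ)) / 2 ^ k) * (d : ℝ) ^ (-(1 / 50) : ℝ) / 4)) →
      ∃ S : SimpleGraph V, E c \ K c ≤ S ∧
        (∀ v w, S.Adj v w → (E c).Adj v w ∨ ∃ i, (F c i).Adj v w) ∧
        (∀ v ∈ O1, v ∉ M c true ∪ M c false → (nb S v).card = T v) ∧
        (∀ v ∈ O1, (nb S v).card = T v ∨ (nb S v).card = T v + 1) ∧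
        ∀ v, v ∉ O1 → |((nb S v).card : ℝ) - ((nb (E c) v).card +
          (σ - (n c : ℝ) / 2 ^ k) * (nb Go v).card)| ≤ 4

end Pool.Agent.Work.MP_db9399_oo
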